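import Pool.Agent.Lib.MP_b374f8_co.Ref.Inv

/-!
From list statistics to statistics of functions on `Fin n`, and from weighted sums to a bijection.
-/

namespace Pool.Agent.Lib.MP_b374f8_co.Ref

open PowerSeries Finset

lemma rmL_ofFn {n : ℕ} : ∀ w : Fin n → ℕ,
    rmL (List.ofFn w) = (univ.filter fun i => ∀ j, i < j → w i < w j).card := by
  induction n with
  | zero => intro w; simp [rmL]
  | succ n ih =>
    intro w
    rw [List.ofFn_succ, rmL, ih, card_filter, card_filter, Fin.sum_univ_succ, add_comm]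
    congr 1
    · apply if_congr _ rfl rfl
      simp [List.mem_ofFn, Fin.forall_fin_succ]
    · refine sum_congr rfl fun i _ => if_congr ?_ rfl rfl
      simp [Fin.forall_fin_succ]

lemma rxL_ofFn {n : ℕ} : ∀ w : Fin n → ℕ,
    rxL (List.ofFn w) = (univ.filter fun i => ∀ j, i < j → w j < w i).card := by
  induction n with
  | zero => intro w; simp [rxL]
  | succ n ih =>
    intro w
    rw [List.ofFn_succ, rxL, ih, card_filter, card_filter, Fin.sum_univ_succ, add_comm]
    congr 1
    · apply if_congr _ rfl rfl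
      simp [List.mem_ofFn, Fin.forall_fin_succ]
    · refine sum_congr rfl fun i _ => if_congr ?_ rfl rfl
      simp [Fin.forall_fin_succ]

lemma lmB_ofFn {n : ℕ} : ∀ (w : Fin n → ℕ) (m : ℕ),
    lmB m (List.ofFn w) = (univ.filter fun i => w i < m ∧ ∀ j, j < i → w i < w j).card := by
  induction n with
  | zero => intro w m; simp [lmB]
  | succ n ih =>
    intro w m
    rw [List.ofFn_succ, lmB, ih, card_filter, card_filter, Fin.sum_univ_succ]
    congr 1
    · apply if_congr _ rfl rfl
      simp
    · refine sum_congr rfl fun i _ => if_congr ?_ rfl rfl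
      simp [Fin.forall_fin_succ, and_assoc]

lemma lmL_ofFn {n : ℕ} (w : Fin n → ℕ) :
    lmL (List.ofFn w) = (univ.filter fun i => ∀ j, j < i → w i < w j).card := by
  cases n with
  | zero => simp [lmL]
  | succ n =>
    rw [List.ofFn_succ, lmL, lmB_ofFn, card_filter, card_filter, Fin.sum_univ_succ]
    congr 1
    · simp
    · refine sum_congr rfl fun i _ => if_congr ?_ rfl rfl
      simp [Fin.forall_fin_succ]

lemma mx_ofFn {n : ℕ} : ∀ (w : Fin n → ℕ) (k : ℕ),
    mx k (List.ofFn w) = (univ.filter fun i => w i = i + k).card := by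
  induction n with
  | zero => intro w m; simp [mx]
  | succ n ih =>
    intro w k
    rw [List.ofFn_succ, mx, ih, card_filter, card_filter, Fin.sum_univ_succ]
    congr 1
    · simp
    · refine sum_congr rfl fun i _ => if_congr ?_ rfl rfl
      rw [Fin.val_succ]
      omega

lemma Iv_ofFn {n : ℕ} : ∀ (w : Fin n → ℕ) (k : ℕ),
    Iv k (List.ofFn w) ↔ ∀ i, w i ≤ i + k := by
  induction n with
  | zero => intro w m; simp [Iv]
  | succ n ih =>
    intro w k
    rw [List.ofFn_succ, Iv, ih, Fin.forall_fin_succ]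
    refine and_congr (by simp) (forall_congr' fun i => ?_)
    rw [Fin.val_succ]
    omega

lemma A110_ofFn {n : ℕ} : ∀ w : Fin n → ℕ,
    A110 (List.ofFn w) ↔ ∀ i j k : Fin n, i < j → j < k → ¬ (w i = w j ∧ w k < w i) := by
  induction n with
  | zero => intro w; simp [A110]
  | succ n ih =>
    intro w
    rw [List.ofFn_succ, A110, ih, List.pairwise_ofFn]
    constructor
    · rintro ⟨h1, h2⟩ i j k hij hjk
      obtain ⟨j, rfl⟩ := Fin.exists_succ_eq.2 (Fin.ne_zero_of_lt hij)
      obtain ⟨k, rfl⟩ := Fin.exists_succ_eq.2 (Fin.ne_zero_of_lt hjk)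
      rw [Fin.succ_lt_succ_iff] at hjk
      refine Fin.cases (fun _ h => h2 hjk ⟨h.1.symm, h.2⟩)
        (fun i hi => h1 i j k (Fin.succ_lt_succ_iff.1 hi) hjk) i hij
    · intro h
      exact ⟨fun i j k hij hjk => h _ _ _ (Fin.succ_lt_succ_iff.2 hij) (Fin.succ_lt_succ_iff.2 hjk),
        fun j k hjk h2 => h 0 _ _ (Fin.succ_pos j) (Fin.succ_lt_succ_iff.2 hjk) ⟨h2.1.symm, h2.2⟩⟩

/-- ascent tops of a list -/
def tpM : List ℕ → Multiset ℕ
  | [] => 0
  | a :: l => tpM l + if a < l.headD 0 then {l.headD 0} else 0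

lemma mem_tpM {n : ℕ} : ∀ (w : Fin n → ℕ) (u : ℕ),
    u ∈ tpM (List.ofFn w) ↔ ∃ i i' : Fin n, (i' : ℕ) = i + 1 ∧ w i < w i' ∧ w i' = u := by
  induction n with
  | zero => intro w u; simp [tpM]
  | succ n ih =>
    intro w u
    rw [List.ofFn_succ, tpM, Multiset.mem_add, ih]
    constructor
    · rintro (⟨i, i', h1, h2, h3⟩ | h)
      · exact ⟨i.succ, i'.succ, by simp [h1], h2, h3⟩
      · cases n with
        | zero => simp at h
        | succ n =>
          rw [List.ofFn_succ, List.headD_cons] at h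
          split_ifs at h with h2
          · exact ⟨0, (0 : Fin (n + 1)).succ, by simp, h2, (Multiset.mem_singleton.1 h).symm⟩
          · simp at h
    · rintro ⟨i, i', h1, h2, h3⟩
      have h0 : i' ≠ 0 := by
        rintro rfl
        simp at h1
      obtain ⟨i', rfl⟩ := Fin.exists_succ_eq.2 h0
      revert h1 h2
      refine Fin.cases (fun h1 h2 => Or.inr ?_) (fun i h1 h2 => Or.inl ⟨i, i', ?_, h2, h3⟩) i
      · cases n with
        | zero => exact i'.elim0
        | succ n =>
          have h4 : i' = 0 := Fin.ext (by simpa using h1)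
          subst h4
          rw [List.ofFn_succ, List.headD_cons, if_pos h2, h3]
          exact Multiset.mem_singleton_self u
      · simpa using h1

/-- missing values of a list, raised by one -/
def msM (e : List ℕ) : Multiset ℕ :=
  ∑ v ∈ range e.length, if v ∈ e then 0 else {v + 1}

lemma mem_msM {n : ℕ} (w : Fin n → ℕ) (v : ℕ) :
    v + 1 ∈ msM (List.ofFn w) ↔ v < n ∧ ∀ i, w i ≠ v := by
  rw [msM, Multiset.mem_sum, List.length_ofFn]
  constructor
  · rintro ⟨u, hu, h⟩
    split_ifs at h with h2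
    · simp at h
    · have h3 : v = u := by simpa using h
      subst h3
      exact ⟨mem_range.1 hu, fun i hi => h2 (List.mem_ofFn.2 ⟨i, hi⟩)⟩
  · rintro ⟨h1, h2⟩
    refine ⟨v, mem_range.2 h1, ?_⟩
    rw [if_neg fun h => by
      obtain ⟨i, hi⟩ := List.mem_ofFn.1 h
      exact h2 i hi]
    exact Multiset.mem_singleton_self _

lemma exists_equiv {A B K : Type} [Fintype A] [Fintype B] [AddMonoid K] (f : A → K) (g : B → K)
    (h : ∑ a, AddMonoidAlgebra.single (f a) (1 : ℤ) = ∑ b, AddMonoidAlgebra.single (g b) (1 : ℤ)) :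
    ∃ φ : A ≃ B, ∀ a, g (φ a) = f a := by
  classical
  have hk : ∀ k, Fintype.card {a // f a = k} = Fintype.card {b // g b = k} := by
    intro k
    have h2 := congrArg (fun p : AddMonoidAlgebra ℤ K => p.coeff k) h
    simp only [AddMonoidAlgebra.coeff_sum, Finsupp.finsetSum_apply, AddMonoidAlgebra.coeff_single,
      Finsupp.single_apply, sum_boole, Nat.cast_inj] at h2
    rw [Fintype.card_subtype, Fintype.card_subtype, h2]
  exact ⟨Equiv.ofFiberEquiv fun k => Fintype.equivOfCardEq (hk k),
    fun a => Equiv.ofFiberEquiv_map _ a⟩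

/-- the key monoid -/
abbrev Key : Type := ℕ × ℕ × Multiset ℕ

/-- monomials -/
noncomputable abbrev mon (k : Key) : AddMonoidAlgebra ℤ Key := AddMonoidAlgebra.single k 1

lemma mon_mul (k l : Key) : mon k * mon l = mon (k + l) := by
  rw [AddMonoidAlgebra.single_mul_single, one_mul]

lemma mon_pow (k : Key) (n : ℕ) : mon k ^ n = mon (n • k) := by
  rw [AddMonoidAlgebra.single_pow, one_pow]

lemma twL_mon (l : List ℕ) : twL (fun v => mon (0, 0, {v})) l = mon (0, 0, tpM l) := by
  induction l with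
  | nil => rfl
  | cons a l ih =>
    rw [twL, tpM, ih]
    split_ifs
    · rw [mon_mul]; rfl
    · rw [mul_one, add_zero]

lemma ms_mon (e : List ℕ) : ms (fun v => mon (0, 0, {v})) 1 e = mon (0, 0, msM e) := by
  rw [ms, msM]
  induction e.length with
  | zero => rfl
  | succ n ih =>
    rw [prod_range_succ, sum_range_succ, ih]
    split_ifs
    · rw [mul_one, add_zero]
    · rw [mon_mul]; rfl

open Classical in
lemma sum_key (m : ℕ) :
    ∑ π : Equiv.Perm (Fin (m + 1)) with Av (word π),
        mon (lmL (word π), rxL (word π), tpM (word π))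
      = ((II m).map fun e => mon (mx 0 e, rmL e, msM e)).sum := by
  have h1 := sum_perm (mon (1, 0, 0)) 1 (mon (0, 1, 0)) (fun v => mon (0, 0, {v})) m
  have h2 := sum_II (mon (1, 0, 0)) (mon (0, 1, 0)) (fun v => mon (0, 0, {v})) m 1 (C 1 * ge 1)
  rw [IT_C_mul, map_mul, constantCoeff_C, ← h2] at h1
  refine Eq.trans ?_ (h1.trans ?_)
  · refine sum_congr rfl fun π _ => ?_
    rw [omL, one_pow, mul_one, twL_mon, mon_pow, mon_pow, mon_mul, mon_mul]
    simp
  · congr 1
    refine List.map_congr_left fun e _ => ?_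
    rw [wI, ms_mon, mon_pow, mon_pow, mon_mul, mon_mul]
    simp [ge]

theorem exists_bij (m : ℕ) :
    ∃ φ : {π : Equiv.Perm (Fin (m + 1)) // Av (word π)} ≃
        {e : Fin (m + 1) → ℕ // List.ofFn e ∈ II m},
      ∀ π, (mx 0 (List.ofFn (φ π).1), rmL (List.ofFn (φ π).1), msM (List.ofFn (φ π).1))
        = (lmL (word π.1), rxL (word π.1), tpM (word π.1)) := by
  classical
  have hfin : Finite {e : Fin (m + 1) → ℕ // List.ofFn e ∈ II m} :=
    Finite.of_injective (fun e => (⟨List.ofFn e.1, e.2⟩ : {l // l ∈ II m}))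
      fun a b h => Subtype.ext (List.ofFn_injective (congrArg Subtype.val h))
  have := Fintype.ofFinite {e : Fin (m + 1) → ℕ // List.ofFn e ∈ II m}
  refine exists_equiv (K := Key)
    (fun π : {π : Equiv.Perm (Fin (m + 1)) // Av (word π)} =>
      (lmL (word π.1), rxL (word π.1), tpM (word π.1)))
    (fun e : {e : Fin (m + 1) → ℕ // List.ofFn e ∈ II m} =>
      (mx 0 (List.ofFn e.1), rmL (List.ofFn e.1), msM (List.ofFn e.1))) ?_
  have h := sum_key m
  rw [← List.sum_toFinset _ (nodup_II m)] at h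
  refine Eq.trans ?_ (h.trans ?_)
  · exact (sum_subtype _ (by simp) fun π => mon (lmL (word π), rxL (word π), tpM (word π))).symm
  · symm
    refine sum_bij (fun e _ => List.ofFn e.1) (fun e _ => List.mem_toFinset.2 e.2)
      (fun a _ b _ h => Subtype.ext (List.ofFn_injective h)) ?_ (fun _ _ => rfl)
    intro l hl
    rw [List.mem_toFinset] at hl
    have h1 := ((mem_II m l).1 hl).1
    have h2 : List.ofFn (fun i : Fin (m + 1) => l[(i : ℕ)]'(by omega)) = l := by
      apply List.ext_getElem
      · simp [h1]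
      · intro i h3 h4
        rw [List.getElem_ofFn]
    exact ⟨⟨_, h2.symm ▸ hl⟩, mem_univ _, h2⟩

end Pool.Agent.Lib.MP_b374f8_co.Ref
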