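import Pool.Agent.Lib.MP_b374f8_co.Ref.Perm

/-!
Inversion sequences avoiding `110`: growth by prepending a zero, with weights.
-/

namespace Pool.Agent.Lib.MP_b374f8_co.Ref

open PowerSeries

variable {R : Type} [CommRing R]

/-- all ways to raise `e` by one, zeros may stay; `s` counts the ones already written -/
def lift : ℕ → List ℕ → List (List ℕ)
  | _, [] => [[]]
  | s, 0 :: e => (if s < 2 then (lift s e).map (0 :: ·) else []) ++ (lift (s + 1) e).map (1 :: ·)
  | s, (v + 1) :: e => (lift s e).map ((v + 2) :: ·)

def cnd : ℕ → List ℕ → Prop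
  | _, [] => True
  | s, 0 :: c => s < 2 ∧ cnd s c
  | s, 1 :: c => cnd (s + 1) c
  | s, (_ + 2) :: c => cnd s c

lemma mem_lift (e : List ℕ) : ∀ (s : ℕ) (c : List ℕ),
    c ∈ lift s e ↔ c.map (· - 1) = e ∧ cnd s c := by
  induction e with
  | nil => intro s c; cases c <;> simp [lift, cnd]
  | cons v e ih =>
    intro s c
    match v, c with
    | 0, [] => simp [lift]
    | v + 1, [] => simp [lift]
    | 0, 0 :: c => by_cases h : s < 2 <;> simp [lift, cnd, h, ih]
    | 0, 1 :: c => simp [lift, cnd, ih]
    | 0, (a + 2) :: c => simp [lift]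
    | v + 1, 0 :: c => simp [lift]
    | v + 1, 1 :: c => simp [lift]
    | v + 1, (a + 2) :: c =>
      simp only [lift, List.mem_map, List.cons.injEq, ih, cnd, List.map_cons]
      constructor
      · rintro ⟨c', ⟨h1, h2⟩, h3, rfl⟩
        exact ⟨⟨by omega, h1⟩, h2⟩
      · rintro ⟨⟨h1, h2⟩, h3⟩
        exact ⟨c, ⟨h2, h3⟩, by omega, rfl⟩

lemma nodup_lift (e : List ℕ) : ∀ s : ℕ, (lift s e).Nodup := by
  induction e with
  | nil => intro s; simp [lift]
  | cons v e ih =>
    intro s
    cases v with
    | zero =>
      rw [lift, List.nodup_append]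
      refine ⟨?_, (ih _).map List.cons_injective, ?_⟩
      · split_ifs
        · exact (ih _).map List.cons_injective
        · simp
      · intro u hu v hv huv
        obtain ⟨v', -, rfl⟩ := List.mem_map.1 hv
        split_ifs at hu
        · obtain ⟨u', -, rfl⟩ := List.mem_map.1 hu
          simp at huv
        · simp at hu
    | succ v => exact (ih _).map List.cons_injective

/-- avoidance of `110` -/
def A110 : List ℕ → Prop
  | [] => True
  | a :: l => A110 l ∧ l.Pairwise (fun b c => ¬ (b = a ∧ c < a))

/-- inversion condition with offset -/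
def Iv : ℕ → List ℕ → Prop
  | _, [] => True
  | k, a :: l => a ≤ k ∧ Iv (k + 1) l

lemma cnd_two (c : List ℕ) : ∀ s, 2 ≤ s → (cnd s c ↔ 0 ∉ c) := by
  induction c with
  | nil => intro s _; simp [cnd]
  | cons a c ih =>
    intro s hs
    match a with
    | 0 => simp [cnd]; omega
    | 1 => simp [cnd, ih (s + 1) (by omega)]
    | a + 2 => simp [cnd, ih s hs]

lemma cnd_one (c : List ℕ) : cnd 1 c ↔ c.Pairwise (fun b d => ¬ (b = 1 ∧ d < 1)) := by
  induction c with
  | nil => simp [cnd]
  | cons a c ih =>
    rw [List.pairwise_cons, ← ih]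
    match a with
    | 0 => simp [cnd]
    | 1 =>
      rw [cnd, cnd_two c 2 le_rfl]
      constructor
      · intro h
        refine ⟨fun d hd h2 => h (by have : d = 0 := by omega
                                     exact this ▸ hd), ?_⟩
        rw [ih]
        exact List.pairwise_of_forall_mem_list fun b _ d hd h2 =>
          h (by have : d = 0 := by omega
                exact this ▸ hd)
      · rintro ⟨h, -⟩ h0
        exact h 0 h0 ⟨rfl, by omega⟩
    | a + 2 => simp [cnd]

lemma cnd_mono (c : List ℕ) : ∀ s, cnd (s + 1) c → cnd s c := by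
  induction c with
  | nil => intro s _; simp [cnd]
  | cons a c ih =>
    intro s h
    match a with
    | 0 => exact ⟨by have := h.1; omega, ih s h.2⟩
    | 1 => exact ih (s + 1) h
    | a + 2 => exact ih s h

lemma A110_iff (c : List ℕ) : A110 c ↔ A110 (c.map (· - 1)) ∧ cnd 0 c := by
  induction c with
  | nil => simp [A110, cnd]
  | cons a c ih =>
    rw [List.map_cons, A110, A110, ih, List.pairwise_map]
    match a with
    | 0 => simp [cnd, List.pairwise_of_forall_mem_list]
    | 1 =>
      rw [← cnd_one, cnd]
      constructor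
      · rintro ⟨⟨h1, -⟩, h2⟩
        exact ⟨⟨h1, List.pairwise_of_forall_mem_list fun _ _ _ _ h => by omega⟩, h2⟩
      · rintro ⟨⟨h1, -⟩, h2⟩
        exact ⟨⟨h1, cnd_mono c 0 h2⟩, h2⟩
    | a + 2 =>
      have : (fun b d : ℕ => ¬ (b - 1 = a + 2 - 1 ∧ d - 1 < a + 2 - 1))
          = fun b d => ¬ (b = a + 2 ∧ d < a + 2) := by
        funext b d
        apply propext
        omega
      rw [cnd, this]
      tauto

lemma Iv_iff (c : List ℕ) : ∀ k, Iv (k + 1) c ↔ Iv k (c.map (· - 1)) := by
  induction c with
  | nil => intro k; simp [Iv]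
  | cons a c ih =>
    intro k
    rw [List.map_cons, Iv, Iv, ih]
    exact and_congr_left fun _ => by omega

/-- all `110`-avoiding inversion sequences of length `m + 1` -/
def II : ℕ → List (List ℕ)
  | 0 => [[0]]
  | m + 1 => (II m).flatMap fun e => (lift 0 e).map (0 :: ·)

lemma mem_II (m : ℕ) : ∀ e : List ℕ, e ∈ II m ↔ e.length = m + 1 ∧ Iv 0 e ∧ A110 e := by
  induction m with
  | zero =>
    intro e
    match e with
    | [] => simp [II]
    | [a] => simp [II, Iv, A110]
    | a :: b :: e => simp [II]
  | succ m ih =>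
    intro e
    simp only [II, List.mem_flatMap, List.mem_map, ih, mem_lift]
    constructor
    · rintro ⟨d, ⟨h1, h2, h3⟩, c, ⟨rfl, h4⟩, rfl⟩
      refine ⟨by simpa using h1, ⟨le_rfl, (Iv_iff c 0).2 h2⟩, (A110_iff c).2 ⟨h3, h4⟩, ?_⟩
      exact List.pairwise_of_forall_mem_list fun _ _ _ _ h => by omega
    · rintro ⟨h1, h2, h3⟩
      match e, h1, h2, h3 with
      | a :: c, h1, h2, h3 =>
        have ha : a = 0 := Nat.le_zero.1 h2.1
        subst ha
        have h4 := (A110_iff c).1 h3.1
        exact ⟨c.map (· - 1), ⟨by simpa using h1, (Iv_iff c 0).1 h2.2, h4.1⟩, c, ⟨rfl, h4.2⟩, rfl⟩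

lemma nodup_II (m : ℕ) : (II m).Nodup := by
  induction m with
  | zero => simp [II]
  | succ m ih =>
    rw [II, List.nodup_flatMap]
    refine ⟨fun e _ => (nodup_lift e 0).map List.cons_injective, ?_⟩
    refine List.Pairwise.imp_of_mem ?_ ih
    intro e e' _ _ hne u hu hu'
    obtain ⟨c, hc, rfl⟩ := List.mem_map.1 hu
    obtain ⟨c', hc', h⟩ := List.mem_map.1 hu'
    have h2 : c' = c := List.cons_injective h
    subst h2
    exact hne (((mem_lift e 0 c').1 hc).1.symm.trans ((mem_lift e' 0 c').1 hc').1)

/-- one if the last entry below two is a one (or there is none) -/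
def kn : List ℕ → ℕ
  | [] => 1
  | a :: c => if 0 ∈ c.map (· - 1) then kn c else if a = 0 then 0 else 1

lemma kn_of_not (c : List ℕ) (h : 0 ∉ c.map (· - 1)) : kn c = 1 := by
  cases c with
  | nil => rfl
  | cons a c =>
    simp only [List.map_cons, List.mem_cons, not_or] at h
    rw [kn, if_neg h.2, if_neg (by omega)]

lemma kn_succ (a : ℕ) (c : List ℕ) : kn ((a + 1) :: c) = kn c := by
  rw [kn, if_neg (Nat.succ_ne_zero a)]
  split_ifs with h
  · rfl
  · exact (kn_of_not c h).symm

lemma rm_lift (c : List ℕ) : rmL (0 :: c) = rmL (c.map (· - 1)) + kn c := by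
  induction c with
  | nil => simp [rmL, kn]
  | cons a c ih =>
    rw [rmL] at ih
    cases a with
    | zero =>
      have h1 : ¬ ∀ b ∈ 0 :: c, 0 < b := fun h => by simpa using h 0 (by simp)
      have h2 : (∀ b ∈ c.map (· - 1), 0 - 1 < b) ↔ 0 ∉ c.map (· - 1) :=
        ⟨fun h h0 => by simpa using h 0 h0,
          fun h b hb => Nat.pos_of_ne_zero fun h0 => h (h0 ▸ hb)⟩
      rw [rmL, if_neg h1, rmL, ih, List.map_cons, rmL, kn]
      simp only [h2]
      by_cases h3 : 0 ∈ c.map (· - 1)
      · simp only [h3, not_true, if_true, if_false]; omega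
      · simp only [h3, not_false_iff, if_true, if_false, kn_of_not c h3]
    | succ a =>
      have h1 : (∀ b ∈ (a + 1) :: c, 0 < b) ↔ ∀ b ∈ c, 0 < b := by simp
      have h2 : (∀ b ∈ c.map (· - 1), a + 1 - 1 < b) ↔ ∀ b ∈ c, a + 1 < b := by
        simp only [List.mem_map, forall_exists_index, and_imp, forall_apply_eq_imp_iff₂]
        exact forall₂_congr fun b _ => by omega
      rw [rmL, rmL, List.map_cons, rmL, kn_succ]
      simp only [h1, h2]
      omega

lemma sum_two (z : R) (f : ℕ → R) (e : List ℕ) : ∀ s, 2 ≤ s →
    ((lift s e).map fun c => z ^ kn c * f (c.count 0)).sum = z * f 0 := by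
  induction e with
  | nil => intro s _; simp [lift, kn]
  | cons v e ih =>
    intro s hs
    cases v with
    | zero =>
      rw [lift, if_neg (by omega), List.nil_append, List.map_map, ← ih (s + 1) (by omega)]
      congr 1
      apply List.map_congr_left
      intro c _
      simp [kn_succ 0 c]
    | succ v =>
      rw [lift, List.map_map, ← ih s hs]
      congr 1
      apply List.map_congr_left
      intro c _
      simp [kn_succ (v + 1) c]

lemma kn_zero (z : R) {s : ℕ} {e c : List ℕ} (hc : c ∈ lift s e) :
    z ^ kn (0 :: c) = (if e.count 0 = 0 then 1 else z) ^ kn c := by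
  have h := ((mem_lift e s c).1 hc).1
  rw [kn, h]
  by_cases h0 : 0 ∈ e
  · rw [if_pos h0, if_neg (by simpa [List.count_eq_zero] using h0)]
  · rw [if_neg h0, if_pos (List.count_eq_zero.2 h0)]
    simp

lemma sum_one (e : List ℕ) : ∀ (z : R) (f : ℕ → R),
    ((lift 1 e).map fun c => z ^ kn c * f (c.count 0)).sum
      = z * ∑ l ∈ Finset.range (e.count 0), f l
        + (if e.count 0 = 0 then z else 1) * f (e.count 0) := by
  induction e with
  | nil => intro z f; simp [lift, kn]
  | cons v e ih =>
    intro z f
    cases v with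
    | zero =>
      have e1 : ((lift 1 e).map (0 :: ·)).map (fun c => z ^ kn c * f (c.count 0))
          = (lift 1 e).map fun c => (if e.count 0 = 0 then 1 else z) ^ kn c
            * (fun l => f (l + 1)) (c.count 0) := by
        rw [List.map_map]
        apply List.map_congr_left
        intro c hc
        simp only [Function.comp, kn_zero z hc, List.count_cons_self]
      have e2 : ((lift 2 e).map (1 :: ·)).map (fun c => z ^ kn c * f (c.count 0))
          = (lift 2 e).map fun c => z ^ kn c * f (c.count 0) := by
        rw [List.map_map]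
        apply List.map_congr_left
        intro c _
        simp [kn_succ 0 c]
      rw [lift, if_pos (by omega), List.map_append, List.sum_append, e1,
        ih _ (fun l => f (l + 1)), show (1 + 1 : ℕ) = 2 from rfl, e2,
        sum_two z f e 2 le_rfl, List.count_cons_self, Finset.sum_range_succ' f]
      by_cases h0 : e.count 0 = 0 <;> simp [h0] <;> ring
    | succ v =>
      have h0 : ((v + 1) :: e).count 0 = e.count 0 := by simp
      rw [lift, List.map_map, h0, ← ih z f]
      congr 1
      apply List.map_congr_left
      intro c _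
      simp [kn_succ (v + 1) c]

lemma sum_zero (τ : R) (e : List ℕ) : ∀ (z : R) (f : ℕ → R),
    ((lift 0 e).map fun c => z ^ kn c * (if 1 ∈ c then 1 else τ) * f (c.count 0)).sum
      = τ * (if e.count 0 = 0 then z else 1) * f (e.count 0)
        + z * ∑ l ∈ Finset.range (e.count 0), (1 + (l : R)) * f l
        + (1 - z) * ((e.count 0 - 1 : ℕ) : R) * f (e.count 0 - 1) := by
  induction e with
  | nil => intro z f; simp [lift, kn]; ring
  | cons v e ih =>
    intro z f
    cases v with
    | zero =>
      have e1 : ((lift 0 e).map (0 :: ·)).map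
            (fun c => z ^ kn c * (if 1 ∈ c then 1 else τ) * f (c.count 0))
          = (lift 0 e).map fun c => (if e.count 0 = 0 then 1 else z) ^ kn c
            * (if 1 ∈ c then 1 else τ) * (fun l => f (l + 1)) (c.count 0) := by
        rw [List.map_map]
        apply List.map_congr_left
        intro c hc
        simp only [Function.comp, kn_zero z hc, List.count_cons_self, List.mem_cons,
          one_ne_zero, false_or]
      have e2 : ((lift 1 e).map (1 :: ·)).map
            (fun c => z ^ kn c * (if 1 ∈ c then 1 else τ) * f (c.count 0))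
          = (lift 1 e).map fun c => z ^ kn c * f (c.count 0) := by
        rw [List.map_map]
        apply List.map_congr_left
        intro c _
        simp [kn_succ 0 c]
      rw [lift, if_pos (by omega), List.map_append, List.sum_append, e1,
        ih _ (fun l => f (l + 1)), Nat.zero_add, e2, sum_one, List.count_cons_self]
      cases hi : e.count 0 with
      | zero => simp
      | succ i =>
        have s1 := Finset.sum_range_succ' (fun l => (1 + (l : R)) * f l) (i + 1)
        have s2 := Finset.sum_range_succ' f (i + 1)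
        have s3 := Finset.sum_range_succ f (i + 1)
        have s4 : ∑ l ∈ Finset.range (i + 1), (1 + ((l + 1 : ℕ) : R)) * f (l + 1)
            = ∑ l ∈ Finset.range (i + 1), (1 + (l : R)) * f (l + 1)
              + ∑ l ∈ Finset.range (i + 1), f (l + 1) := by
          rw [← Finset.sum_add_distrib]
          exact Finset.sum_congr rfl fun l _ => by push_cast; ring
        simp only [Nat.succ_ne_zero, if_false, Nat.add_sub_cancel, s1, s4]
        push_cast
        linear_combination z * s2 - z * s3
    | succ v =>
      have h0 : ((v + 1) :: e).count 0 = e.count 0 := by simp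
      rw [lift, List.map_map, h0, ← ih z f]
      congr 1
      apply List.map_congr_left
      intro c _
      simp [kn_succ (v + 1) c]

/-- number of entries equal to their position (with offset) -/
def mx : ℕ → List ℕ → ℕ
  | _, [] => 0
  | k, a :: l => (if a = k then 1 else 0) + mx (k + 1) l

lemma mx_lift (c : List ℕ) : ∀ k, mx (k + 2) c = mx (k + 1) (c.map (· - 1)) := by
  induction c with
  | nil => intro k; rfl
  | cons a c ih =>
    intro k
    rw [List.map_cons, mx, mx, ih]
    have : a = k + 2 ↔ a - 1 = k + 1 := by omega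
    simp only [this]

/-- weight of the missing values -/
def ms (t : ℕ → R) (s : ℕ) (e : List ℕ) : R :=
  ∏ v ∈ Finset.range e.length, if v ∈ e then 1 else t (v + s)

lemma ms_lift (t : ℕ → R) (s : ℕ) {c e : List ℕ} (h : c.map (· - 1) = 0 :: e) :
    ms t s (0 :: c) = ms t (s + 1) (0 :: e) * if 1 ∈ c then 1 else t (s + 1) := by
  have hl : c.length = e.length + 1 := by simpa using congrArg List.length h
  rw [ms, ms, List.length_cons, List.length_cons, hl, Finset.prod_range_succ',
    Finset.prod_range_succ', Finset.prod_range_succ']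
  have h1 : ∀ v, (v + 1 + 1 ∈ 0 :: c) ↔ (v + 1 ∈ 0 :: e) := by
    intro v
    rw [← h]
    simp only [List.mem_cons, List.mem_map]
    constructor
    · rintro (h2 | h2)
      · omega
      · exact ⟨_, h2, by omega⟩
    · rintro ⟨b, hb, h2⟩
      have : v + 1 + 1 = b := by omega
      exact Or.inr (this ▸ hb)
  have h2 : ∀ v, v + 1 + 1 + s = v + 1 + (s + 1) := fun v => by ring
  simp only [h1, h2]
  simp [add_comm]

/-- weight of an inversion sequence -/
def wI (x z : R) (t : ℕ → R) (s : ℕ) (e : List ℕ) : R := x ^ mx 0 e * z ^ rmL e * ms t s e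

lemma wI_lift (x z : R) (t : ℕ → R) (s a : ℕ) {c e : List ℕ} (ha : a ≤ 1)
    (h : c.map (· - 1) = e) :
    wI x z t s (0 :: a :: c) = wI x z t (s + 1) (0 :: e) * x ^ a *
      (z ^ kn (a :: c) * if 1 ∈ a :: c then 1 else t (s + 1)) := by
  have h1 : (a :: c).map (· - 1) = 0 :: e := by
    rw [List.map_cons, h]
    congr 1
    omega
  have h2 : mx 0 (0 :: a :: c) = mx 0 (0 :: e) + a := by
    rw [mx, mx, mx, mx_lift c 0, h]
    split_ifs <;> omega
  rw [wI, wI, ms_lift t s h1, rm_lift, h1, h2, pow_add, pow_add]
  ring

lemma sum_child (x z : R) (t : ℕ → R) (s : ℕ) (e : List ℕ) (f : R⟦X⟧) :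
    (((lift 0 (0 :: e)).map (0 :: ·)).map
      fun c => wI x z t s c * coeff (c.count 0 - 1) f).sum
      = wI x z t (s + 1) (0 :: e) * coeff ((0 :: e).count 0 - 1) (TT x z (t (s + 1)) f) := by
  have e1 : (((lift 0 e).map (0 :: ·)).map (0 :: ·)).map
        (fun c => wI x z t s c * coeff (c.count 0 - 1) f)
      = ((lift 0 e).map fun c => (if e.count 0 = 0 then 1 else z) ^ kn c
          * (if 1 ∈ c then 1 else t (s + 1)) * (fun l => coeff (l + 1) f) (c.count 0)).map
            (wI x z t (s + 1) (0 :: e) * ·) := by
    simp only [List.map_map]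
    apply List.map_congr_left
    intro c hc
    simp only [Function.comp, wI_lift x z t s 0 (by omega) ((mem_lift e 0 c).1 hc).1,
      kn_zero z hc, List.count_cons_self, List.mem_cons, one_ne_zero, false_or,
      Nat.add_sub_cancel]
    ring
  have e2 : (((lift 1 e).map (1 :: ·)).map (0 :: ·)).map
        (fun c => wI x z t s c * coeff (c.count 0 - 1) f)
      = ((lift 1 e).map fun c => z ^ kn c * (fun l => coeff l f) (c.count 0)).map
            (wI x z t (s + 1) (0 :: e) * x * ·) := by
    simp only [List.map_map]
    apply List.map_congr_left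
    intro c hc
    simp only [Function.comp, wI_lift x z t s 1 le_rfl ((mem_lift e 1 c).1 hc).1, kn_succ 0 c,
      List.count_cons_self, List.mem_cons, true_or, if_true, Nat.add_sub_cancel]
    rw [List.count_cons_of_ne (by omega)]
    ring
  rw [lift, if_pos (by omega), List.map_append, List.map_append, List.sum_append, e1,
    Nat.zero_add, e2,
    List.sum_map_mul_left, List.sum_map_mul_left, List.map_id', List.map_id',
    sum_zero _ e _ (fun l => coeff (l + 1) f), sum_one e z (fun l => coeff l f),
    List.count_cons_self, Nat.add_sub_cancel, coeff_TT]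
  cases hi : e.count 0 with
  | zero => simp; ring
  | succ i =>
    have s1 := Finset.sum_range_succ' (fun l => (l : R) * coeff l f) (i + 1)
    have s2 := Finset.sum_range_succ (fun l => (l : R) * coeff l f) (i + 1)
    have s3 : ∑ l ∈ Finset.range (i + 1), ((l : R) + x) * coeff l f
        = ∑ l ∈ Finset.range (i + 1), (l : R) * coeff l f
          + x * ∑ l ∈ Finset.range (i + 1), coeff l f := by
      rw [Finset.mul_sum, ← Finset.sum_add_distrib]
      exact Finset.sum_congr rfl fun l _ => by ring
    have s4 : ∑ l ∈ Finset.range (i + 1), (1 + (l : R)) * coeff (l + 1) f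
        = ∑ l ∈ Finset.range (i + 1), ((l + 1 : ℕ) : R) * coeff (l + 1) f :=
      Finset.sum_congr rfl fun l _ => by push_cast; ring
    simp only [Nat.succ_ne_zero, if_false, Nat.add_sub_cancel, s3, s4]
    push_cast at s1 s2 ⊢
    linear_combination (wI x z t (s + 1) (0 :: e) * z) * (s2 - s1)

theorem sum_II (x z : R) (t : ℕ → R) (m : ℕ) : ∀ (s : ℕ) (f : R⟦X⟧),
    ((II m).map fun e => wI x z t s e * coeff (e.count 0 - 1) f).sum
      = x * z * constantCoeff (IT x z t s m f) := by
  induction m with
  | zero => intro s f; simp [II, wI, mx, rmL, ms, IT]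
  | succ m ih =>
    intro s f
    rw [II, IT, ← ih, List.map_flatMap, List.flatMap_def, List.sum_flatten, List.map_map]
    congr 1
    apply List.map_congr_left
    intro e he
    obtain ⟨h1, h2, -⟩ := (mem_II m e).1 he
    match e, h1, h2 with
    | a :: e, _, h2 =>
      have ha : a = 0 := Nat.le_zero.1 h2.1
      subst ha
      exact sum_child x z t s e f

end Pool.Agent.Lib.MP_b374f8_co.Ref
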