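import Mathlib

/-!
Power series part of the refined count of `23-1-4` avoiders (four statistics).
-/

namespace Pool.Agent.Lib.MP_b374f8_co.Ref

open PowerSeries

variable {R : Type} [CommRing R]

noncomputable def ge (y : R) : R⟦X⟧ := PowerSeries.mk fun n => y ^ n

noncomputable def sf (f : R⟦X⟧) : R⟦X⟧ := PowerSeries.mk fun n => coeff (n + 1) f

noncomputable def gg (y z : R) : R⟦X⟧ := X * (C (y * z) * ge y)

noncomputable def dl (z : R) (f : R⟦X⟧) : R⟦X⟧ := (1 + gg 1 z) * (X * d⁄dX R f)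

noncomputable def NN (z : R) (g : R⟦X⟧) : R⟦X⟧ := dl z (X * g) + C (z - 1) * (X * g)

lemma ge_eq (y : R) : ge y = 1 + X * (C y * ge y) := by
  ext n
  cases n with
  | zero => simp [ge]
  | succ n => simp [ge, coeff_succ_X_mul, coeff_one, pow_succ']

lemma gg_eq (y z : R) : gg y z = X * (C y * (gg y z + C z)) := by
  unfold gg
  conv_lhs => rw [ge_eq]
  rw [map_mul]
  ring

lemma dl_add (z : R) (f g : R⟦X⟧) : dl z (f + g) = dl z f + dl z g := by
  simp only [dl, map_add]; ring

lemma dl_zero (z : R) : dl z 0 = 0 := by simp [dl]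

lemma dl_mul (z : R) (f g : R⟦X⟧) : dl z (f * g) = f * dl z g + g * dl z f := by
  simp only [dl, Derivation.leibniz, smul_eq_mul]; ring

lemma dl_one (z : R) : dl z 1 = 0 := by simp [dl]

lemma dl_C (z c : R) : dl z (C c) = 0 := by simp [dl]

lemma dl_C_mul (z c : R) (f : R⟦X⟧) : dl z (C c * f) = C c * dl z f := by
  rw [dl_mul, dl_C]; ring

lemma dl_X (z : R) : dl z X = (1 + gg 1 z) * X := by simp [dl]

lemma dl_X_mul (z : R) (g : R⟦X⟧) : dl z (X * g) = X * ((1 + gg 1 z) * g + dl z g) := by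
  rw [dl_mul, dl_X]; ring

lemma const_gg (y z : R) : constantCoeff (gg y z) = 0 := by simp [gg]

lemma const_NN (z : R) (g : R⟦X⟧) : constantCoeff (NN z g) = 0 := by simp [NN, dl]

lemma NN_add (z : R) (f g : R⟦X⟧) : NN z (f + g) = NN z f + NN z g := by
  simp only [NN, mul_add, dl_add]; ring

lemma NN_zero (z : R) : NN z 0 = 0 := by simp [NN, dl_zero]

lemma NN_C_mul (z c : R) (f : R⟦X⟧) : NN z (C c * f) = C c * NN z f := by
  simp only [NN]
  rw [show X * (C c * f) = C c * (X * f) by ring, dl_C_mul]; ring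

lemma NN_one (z : R) : NN z 1 = gg 1 z := by
  simp only [NN, mul_one, dl_X]
  conv_rhs => rw [gg_eq]
  simp only [map_sub, map_one]
  ring

lemma dl_NN (z : R) (g : R⟦X⟧) : dl z (NN z g) = NN z ((1 + gg 1 z) * g + dl z g) := by
  simp only [NN]
  rw [dl_add, dl_C_mul, dl_X_mul z g]

lemma X_mul_sf (f : R⟦X⟧) : X * sf f + C (constantCoeff f) = f :=
  (eq_X_mul_shift_add_const f).symm

lemma sf_X_mul (f : R⟦X⟧) : sf (X * f) = f := by
  ext n; simp [sf, coeff_succ_X_mul]

lemma sf_add (f g : R⟦X⟧) : sf (f + g) = sf f + sf g := by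
  ext n; simp [sf]

lemma sf_zero : sf (0 : R⟦X⟧) = 0 := by
  ext n; simp [sf]

lemma sf_one : sf (1 : R⟦X⟧) = 0 := by
  ext n; simp [sf, coeff_one]

lemma sf_C_mul (c : R) (f : R⟦X⟧) : sf (C c * f) = C c * sf f := by
  ext n; simp [sf]

lemma sf_mul_of_zero (f g : R⟦X⟧) (h : constantCoeff g = 0) : sf (f * g) = f * sf g := by
  have h1 := X_mul_sf g
  rw [h, map_zero, add_zero] at h1
  conv_lhs => rw [← h1]
  rw [show f * (X * sf g) = X * (f * sf g) by ring, sf_X_mul]

lemma sf_gg (y z : R) : sf (gg y z) = C y * (gg y z + C z) := by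
  conv_lhs => rw [gg_eq]
  rw [sf_X_mul]

lemma sf_NN (z : R) (g : R⟦X⟧) :
    sf (NN z g) = (1 + gg 1 z) * g + dl z g + C (z - 1) * g := by
  simp only [NN]
  rw [dl_X_mul, show C (z - 1) * (X * g) = X * (C (z - 1) * g) by ring, sf_add, sf_X_mul,
    sf_X_mul]

lemma NN_sf (z : R) (g : R⟦X⟧) :
    NN z (sf g) = dl z g + C (z - 1) * (g - C (constantCoeff g)) := by
  have h := X_mul_sf g
  have h2 : X * sf g = g - C (constantCoeff g) := by linear_combination h
  have h3 : dl z g = dl z (X * sf g) := by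
    conv_lhs => rw [← h]
    rw [dl_add, dl_C, add_zero]
  simp only [NN]
  rw [← h3, h2]

/-- moves at the last letter -/
lemma NN_last {y z c : R} (h : y = 1 ∨ c = z) :
    NN z (C y * (gg y z + C c)) = dl z (gg y z) + C (c - 1) * gg y z := by
  rcases h with rfl | rfl
  · have h1 := dl_NN z 1
    rw [NN_one, dl_one, mul_one, add_zero] at h1
    rw [h1, map_one, one_mul,
      show gg 1 z + C c = (1 + gg 1 z) + C (c - 1) * 1 by simp only [map_sub, map_one]; ring,
      NN_add, NN_C_mul, NN_one]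
  · simp only [NN]
    rw [← gg_eq]

/-- One step of the transfer operator. -/
noncomputable def TT (x z s : R) (f : R⟦X⟧) : R⟦X⟧ :=
  dl z f + C x * ((1 + gg 1 z) * f) + C (z - 1) * f + C ((x - 1) * (z - 1)) * C (constantCoeff f)
    + C s * sf f

lemma TT_add (x z s : R) (f g : R⟦X⟧) : TT x z s (f + g) = TT x z s f + TT x z s g := by
  simp only [TT, dl_add, sf_add, map_add]; ring

lemma TT_zero (x z s : R) : TT x z s 0 = 0 := by simp [TT, dl_zero, sf_zero]

lemma TT_C_mul (x z s c : R) (f : R⟦X⟧) : TT x z s (C c * f) = C c * TT x z s f := by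
  simp only [TT, dl_C_mul, sf_C_mul, map_mul, constantCoeff_C]; ring

lemma coeff_gg_mul (z : R) (u : R⟦X⟧) (i : ℕ) :
    coeff i (gg 1 z * u) = z * ∑ l ∈ Finset.range i, coeff l u := by
  induction i with
  | zero => simp [gg]
  | succ i ih =>
    have h : gg 1 z * u = X * (gg 1 z * u + C z * u) := by
      conv_lhs => rw [gg_eq]
      rw [map_one]; ring
    conv_lhs => rw [h]
    rw [coeff_succ_X_mul, map_add, ih, Finset.sum_range_succ, coeff_C_mul]
    ring

lemma coeff_theta (f : R⟦X⟧) (l : ℕ) : coeff l (X * d⁄dX R f) = (l : R) * coeff l f := by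
  cases l with
  | zero => simp
  | succ l => rw [coeff_succ_X_mul, coeff_derivative]; push_cast; ring

lemma coeff_TT (x z s : R) (f : R⟦X⟧) (i : ℕ) :
    coeff i (TT x z s f) = z * ∑ l ∈ Finset.range i, ((l : R) + x) * coeff l f
      + (if i = 0 then x * z else z + i + x - 1) * coeff i f + s * coeff (i + 1) f := by
  have h : TT x z s f = gg 1 z * (X * d⁄dX R f + C x * f) + (X * d⁄dX R f + C x * f)
      + C (z - 1) * f + C ((x - 1) * (z - 1) * constantCoeff f) + C s * sf f := by
    simp only [TT, dl, map_mul]; ring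
  rw [h]
  simp only [map_add, coeff_gg_mul, coeff_theta, coeff_C_mul, coeff_C, sf, coeff_mk]
  have e : ∑ l ∈ Finset.range i, ((l : R) * coeff l f + x * coeff l f)
      = ∑ l ∈ Finset.range i, ((l : R) + x) * coeff l f :=
    Finset.sum_congr rfl fun l _ => by ring
  rw [e]
  split_ifs with h0
  · subst h0
    simp only [coeff_zero_eq_constantCoeff, Nat.cast_zero]
    ring
  · ring

/-- iterated transfer operator, steps `s + 1, ..., s + m` -/
noncomputable def IT (x z : R) (t : ℕ → R) : ℕ → ℕ → R⟦X⟧ → R⟦X⟧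
  | _, 0, f => f
  | s, m + 1, f => IT x z t (s + 1) m (TT x z (t (s + 1)) f)

lemma IT_succ (x z : R) (t : ℕ → R) (m : ℕ) : ∀ (s : ℕ) (f : R⟦X⟧),
    IT x z t s (m + 1) f = TT x z (t (s + m + 1)) (IT x z t s m f) := by
  induction m with
  | zero => intro s f; rfl
  | succ m ih =>
    intro s f
    rw [IT, ih, show s + 1 + m + 1 = s + (m + 1) + 1 by ring]
    rfl

lemma IT_C_mul (x z c : R) (t : ℕ → R) (m : ℕ) : ∀ (s : ℕ) (f : R⟦X⟧),
    IT x z t s m (C c * f) = C c * IT x z t s m f := by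
  induction m with
  | zero => intro s f; rfl
  | succ m ih => intro s f; rw [IT, IT, TT_C_mul, ih]

end Pool.Agent.Lib.MP_b374f8_co.Ref
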