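import Pool.Agent.Lib.MP_b374f8_co.Count
import Pool.Agent.Lib.MP_b374f8_co.Ref.Ser

/-!
The slot machine with weights.
-/

namespace Pool.Agent.Lib.MP_b374f8_co.Ref

open PowerSeries

variable {R : Type} [CommRing R]

/-- weight of the last position -/
def yr (y : R) (r : Wd) : R := if r = [] then y else 1

/-- weight of a closed right context -/
def zr (c : R) (r : Wd) : R := if closed r then c else 1

lemma yr_nil (y : R) : yr y [] = y := by simp [yr]

lemma zr_nil (c : R) : zr c [] = c := by simp [zr, closed]

lemma yr_of_ne (y : R) {r : Wd} (h : r ≠ []) : yr y r = 1 := by simp [yr, h]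

lemma yr_append (y : R) (s r : Wd) : yr y (s ++ r) = yr (yr y r) s := by
  by_cases h1 : s = [] <;> by_cases h2 : r = [] <;> simp [yr, h1, h2]

lemma zr_append (c : R) (s r : Wd) : zr c (s ++ r) = zr (zr c r) s := by
  by_cases h1 : closed s <;> by_cases h2 : closed r <;> simp [zr, h1, h2, closed_append]

noncomputable def Nf (z : R) (f : Bool) (g : R⟦X⟧) : R⟦X⟧ := if f then NN z g else g

noncomputable def nd (z : R) (f : Bool) (y : R) (t : Wd) (g : R⟦X⟧) : R⟦X⟧ :=
  if f = true ∧ t = [] then gg y z else Nf z f g

noncomputable def bt (z : R) : R → Wd → R⟦X⟧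
  | _, [] => 1
  | y, x :: w => nd z x.2 (yr y (dr x.1 w)) (tk x.1 w) (bt z (yr y (dr x.1 w)) (tk x.1 w))
      * bt z y (dr x.1 w)
termination_by _ w => w.length
decreasing_by
  · have := length_tk x.1 w
    simp only [List.length_cons]; omega
  · have := length_dr x.1 w
    simp only [List.length_cons]; omega

lemma bt_nil (z y : R) : bt z y [] = 1 := by rw [bt]

lemma bt_split (z y : R) {a : ℕ} (f : Bool) {t r : Wd} (ht : high a t) (hr : low a r) :
    bt z y ((a, f) :: (t ++ r)) = nd z f (yr y r) t (bt z (yr y r) t) * bt z y r := by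
  rw [bt, tk_append_high r ht, dr_append_high r ht, tk_of_low hr, dr_of_low hr, List.append_nil]

lemma low_of_below {j : ℕ} {w : Wd} (h : below j w) : low j w := by
  cases w with
  | nil => exact low_nil j
  | cons x w => exact low_cons.2 (h x (by simp)).le

lemma bt_top (z y : R) {j : ℕ} (f : Bool) {w : Wd} (h : below j w) :
    bt z y ((j, f) :: w) = (if f then gg (yr y w) z else 1) * bt z y w := by
  have := bt_split z y (a := j) f (t := []) (r := w) (by simp [high]) (low_of_below h)
  rw [List.nil_append] at this
  rw [this, bt_nil]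
  cases f <;> simp [nd, Nf]

lemma nd_of_ne (z y : R) (f : Bool) {t : Wd} (h : t ≠ []) (g : R⟦X⟧) :
    nd z f y t g = Nf z f g := by simp [nd, h]

lemma bt_of_closed (z : R) (w : Wd) : ∀ y : R, closed w → bt z y w = 1 := by
  induction w using split_induction with
  | h0 => intro y _; exact bt_nil z y
  | h1 a f t r ht hr iht ihr =>
    intro y h
    rw [closed_cons, closed_append] at h
    obtain ⟨hf, h1, h2⟩ := h
    simp only at hf
    rw [bt_split z y f ht hr, iht _ h1, ihr _ h2, hf]
    simp [nd, Nf]

lemma const_bt (z : R) (w : Wd) : ∀ y : R, ¬ closed w → constantCoeff (bt z y w) = 0 := by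
  induction w using split_induction with
  | h0 => intro y h; exact absurd (by simp [closed]) h
  | h1 a f t r ht hr iht ihr =>
    intro y h
    rw [closed_cons, closed_append] at h
    rw [bt_split z y f ht hr, map_mul]
    cases f with
    | true =>
      by_cases h0 : t = [] <;> simp [nd, Nf, h0, const_gg, const_NN]
    | false =>
      simp only [true_and, not_and_or] at h
      rcases h with h | h
      · simp [nd, Nf, iht _ h]
      · simp [ihr _ h]

lemma bt_head (z y : R) {a j : ℕ} (f b : Bool) {t r : Wd} (ht : high a t) (hr : low a r)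
    (haj : a < j) (hj : below j t) :
    bt z y ((a, f) :: (j, b) :: (t ++ r)) =
      Nf z f ((if b then gg (yr (yr y r) t) z else 1) * bt z (yr y r) t) * bt z y r := by
  have h1 : high a ((j, b) :: t) := by
    intro u hu
    rcases List.mem_cons.1 hu with rfl | hu
    · exact haj
    · exact ht u hu
  have := bt_split z y f h1 hr
  rw [List.cons_append] at this
  rw [this, bt_top z _ b hj, nd_of_ne z _ f (by simp)]

/-- the weight of the move that inserted `j` -/
def lw (y c : R) (j : ℕ) : Wd → R
  | [] => 1
  | x :: s => if x.1 = j then yr y s * (if x.2 then 1 else zr c s) else lw y c j s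

lemma lw_move (y c : R) {j a : ℕ} (b b' : Bool) {p : Wd} (s : Wd) (hp : below j p) (ha : a < j) :
    lw y c j (p ++ (a, b) :: (j, b') :: s) = yr y s * (if b' then 1 else zr c s) := by
  induction p with
  | nil => simp [lw, ha.ne]
  | cons x p ih =>
    rw [below_cons] at hp
    rw [List.cons_append, lw, if_neg hp.1.ne, ih hp.2]

lemma Nf_C_mul (z c : R) (f : Bool) (g : R⟦X⟧) : Nf z f (C c * g) = C c * Nf z f g := by
  cases f <;> simp [Nf, NN_C_mul]

lemma Nf_list_sum (z : R) (f : Bool) (l : List R⟦X⟧) :
    Nf z f l.sum = (l.map (Nf z f)).sum := by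
  induction l with
  | nil => cases f <;> simp [Nf, NN_zero]
  | cons a l ih =>
    rw [List.sum_cons, List.map_cons, List.sum_cons, ← ih]
    cases f <;> simp [Nf, NN_add]

/-- weighted series of a word produced by inserting `j` -/
noncomputable def tm (z y c : R) (j : ℕ) (u : Wd) : R⟦X⟧ := C (lw y c j u) * bt z y u

lemma tm_left (z y c : R) {j a d : ℕ} (f b b' : Bool) {p s r : Wd} (haj : a < j)
    (ht : high a (p ++ (d, true) :: s)) (hr : low a r) (h1 : below j (p ++ (d, true) :: s)) :
    tm z y c j ((a, f) :: ((p ++ (d, b) :: (j, b') :: s) ++ r)) =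
      Nf z f (tm z (yr y r) (zr c r) j (p ++ (d, b) :: (j, b') :: s)) * bt z y r := by
  rw [below_append, below_cons] at h1
  have e : (a, f) :: ((p ++ (d, b) :: (j, b') :: s) ++ r)
      = ((a, f) :: p) ++ (d, b) :: (j, b') :: (s ++ r) := by simp
  have hw : lw y c j ((a, f) :: ((p ++ (d, b) :: (j, b') :: s) ++ r))
      = lw (yr y r) (zr c r) j (p ++ (d, b) :: (j, b') :: s) := by
    rw [e, lw_move y c b b' _ (below_cons.2 ⟨haj, h1.1⟩) h1.2.1, lw_move _ _ b b' _ h1.1 h1.2.1,
      yr_append, zr_append]
  rw [tm, tm, hw, bt_split z y f (high_move haj ht) hr, nd_of_ne z _ f (by simp), Nf_C_mul]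
  ring

lemma tm_right (z y c : R) {j a d : ℕ} (f b b' : Bool) {p s t : Wd} (haj : a < j)
    (ht : high a t) (hr : low a (p ++ (d, true) :: s)) (h1 : below j t)
    (h2 : below j (p ++ (d, true) :: s)) :
    tm z y c j ((a, f) :: (t ++ (p ++ (d, b) :: (j, b') :: s))) =
      nd z f (yr y (p ++ (d, true) :: s)) t (bt z (yr y (p ++ (d, true) :: s)) t)
        * tm z y c j (p ++ (d, b) :: (j, b') :: s) := by
  rw [below_append, below_cons] at h2
  have e : (a, f) :: (t ++ (p ++ (d, b) :: (j, b') :: s))
      = ((a, f) :: (t ++ p)) ++ (d, b) :: (j, b') :: s := by simp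
  have hw : lw y c j ((a, f) :: (t ++ (p ++ (d, b) :: (j, b') :: s)))
      = lw y c j (p ++ (d, b) :: (j, b') :: s) := by
    rw [e, lw_move y c b b' _ (below_cons.2 ⟨haj, below_append.2 ⟨h1, h2.1⟩⟩) h2.2.1,
      lw_move _ _ b b' _ h2.1 h2.2.1]
  rw [tm, tm, hw, bt_split z y f ht (low_move hr), yr_of_ne y (by simp), yr_of_ne y (by simp)]
  ring

lemma tm_head (z y c : R) {a j : ℕ} (f b : Bool) {t r : Wd} (ht : high a t) (hr : low a r)
    (haj : a < j) (hj : below j t) :
    tm z y c j ((a, f) :: (j, b) :: (t ++ r)) =
      Nf z f (C (yr (yr y r) t) * ((if b then gg (yr (yr y r) t) z else C (zr (zr c r) t))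
        * bt z (yr y r) t)) * bt z y r := by
  have hw := lw_move y c f b (p := []) (t ++ r) (by simp [below]) haj
  rw [List.nil_append] at hw
  rw [tm, hw, bt_head z y f b ht hr haj hj, yr_append, zr_append, Nf_C_mul]
  cases b
  · simp only [Bool.false_eq_true, if_false, one_mul, Nf_C_mul, map_mul]; ring
  · simp only [if_true, mul_one]; ring

lemma sumA (z : R) (j : ℕ) (w : Wd) : ∀ y c : R, (y = 1 ∨ c = z) → below j w →
    ((mvA j w).map (tm z y c j)).sum =
      dl z (bt z y w) + (if closed w then 0 else C (c - 1) * bt z y w) := by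
  induction w using split_induction with
  | h0 => intro y c _ _; simp [mvA, bt_nil, dl_one, closed]
  | h1 a f t r ht hr iht ihr =>
    intro y c hyc h
    rw [below_cons, below_append] at h
    obtain ⟨haj, h1, h2⟩ := h
    simp only at haj
    have hyc' : yr y r = 1 ∨ zr c r = z := by
      by_cases h0 : r = []
      · subst h0; rwa [yr_nil, zr_nil]
      · exact Or.inl (yr_of_ne y h0)
    have e1 : (((mvA j t).map (· ++ r)).map ((a, f) :: ·)).map (tm z y c j)
        = (((mvA j t).map (tm z (yr y r) (zr c r) j)).map (Nf z f)).map (· * bt z y r) := by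
      simp only [List.map_map]
      apply List.map_congr_left
      intro u hu
      obtain ⟨p, d, b, s, rfl, rfl⟩ := mem_mvA.1 hu
      exact tm_left z y c f true b haj ht hr h1
    have e2 : (((mvA j r).map (t ++ ·)).map ((a, f) :: ·)).map (tm z y c j)
        = ((mvA j r).map (tm z y c j)).map (nd z f (yr y r) t (bt z (yr y r) t) * ·) := by
      simp only [List.map_map]
      apply List.map_congr_left
      intro u hu
      obtain ⟨p, d, b, s, rfl, rfl⟩ := mem_mvA.1 hu
      exact tm_right z y c f true b haj ht hr h1 h2
    rw [mvA, mvA_append, List.map_append, List.map_append, List.map_append, List.sum_append,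
      List.sum_append, e1, e2, List.sum_map_mul_right, List.sum_map_mul_left, List.map_id',
      List.map_id', ← Nf_list_sum, iht _ _ hyc' h1, ihr _ _ hyc h2, bt_split z y f ht hr, dl_mul]
    cases f with
    | false =>
      simp only [Bool.false_eq_true, if_false, List.map_nil, List.sum_nil, nd, Nf, false_and,
        closed_cons, closed_append, true_and]
      by_cases c1 : closed t <;> by_cases c2 : closed r <;> simp [c1, c2, zr] <;> ring
    | true =>
      have key : NN z (C (yr (yr y r) t) * (gg (yr (yr y r) t) z * bt z (yr y r) t))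
          + NN z (C (yr (yr y r) t) * (C (zr (zr c r) t) * bt z (yr y r) t))
          + NN z (dl z (bt z (yr y r) t)
            + (if closed t then 0 else C (zr c r - 1) * bt z (yr y r) t))
          = dl z (nd z true (yr y r) t (bt z (yr y r) t))
            + C (zr c r - 1) * nd z true (yr y r) t (bt z (yr y r) t) := by
        rw [← NN_add, ← NN_add]
        by_cases h0 : t = []
        · subst h0
          simp only [nd, and_self, if_true, yr_nil, zr_nil, bt_nil, mul_one, dl_one]
          rw [← NN_last hyc', if_pos (by simp [closed])]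
          congr 1
          ring
        · rw [nd_of_ne z _ true h0, yr_of_ne _ h0]
          simp only [Nf, if_true]
          rw [dl_NN, ← NN_C_mul, ← NN_add]
          congr 1
          by_cases c1 : closed t <;> simp [c1, zr] <;> ring
      simp only [if_true, List.map_cons, List.map_nil, List.sum_cons, List.sum_nil,
        tm_head z y c true _ ht hr haj h1, closed_cons, Bool.true_eq_false, false_and, if_false,
        Bool.false_eq_true, Nf]
      by_cases c2 : closed r
      · have hz : zr c r = c := by simp [zr, c2]
        rw [hz] at key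
        rw [hz, if_pos c2]
        linear_combination (bt z y r) * key
      · have hz : zr c r = 1 := by simp [zr, c2]
        rw [hz] at key
        rw [hz, if_neg c2]
        simp only [sub_self, map_zero, zero_mul, add_zero] at key ⊢
        linear_combination (bt z y r) * key

lemma sumB (z : R) (j : ℕ) (w : Wd) : ∀ y : R, below j w →
    ((mvB j w).map (tm z y z j)).sum = sf (bt z y w) := by
  induction w using split_induction with
  | h0 => intro y _; simp [mvB, bt_nil, sf_one]
  | h1 a f t r ht hr iht ihr =>
    intro y h
    rw [below_cons, below_append] at h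
    obtain ⟨haj, h1, h2⟩ := h
    simp only at haj
    have e1 : (((mvB j t).map (· ++ r)).map ((a, f) :: ·)).map (tm z y z j)
        = (((mvB j t).map (tm z (yr y r) (zr z r) j)).map (Nf z f)).map (· * bt z y r) := by
      simp only [List.map_map]
      apply List.map_congr_left
      intro u hu
      obtain ⟨p, d, b, s, rfl, rfl, -⟩ := mem_mvB.1 hu
      exact tm_left z y z f false b haj ht hr h1
    have e2 : (((mvB j r).map (t ++ ·)).map ((a, f) :: ·)).map (tm z y z j)
        = ((mvB j r).map (tm z y z j)).map (nd z f (yr y r) t (bt z (yr y r) t) * ·) := by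
      simp only [List.map_map]
      apply List.map_congr_left
      intro u hu
      obtain ⟨p, d, b, s, rfl, rfl, -⟩ := mem_mvB.1 hu
      exact tm_right z y z f false b haj ht hr h1 h2
    rw [mvB, mvB_append j ht hr, List.map_append, List.map_append, List.map_append,
      List.sum_append, List.sum_append, e2, List.sum_map_mul_left, List.map_id', ihr _ h2,
      bt_split z y f ht hr, dr_append_high r ht, dr_of_low hr]
    by_cases hc : closed r
    · have hz : zr z r = z := by simp [zr, hc]
      rw [if_pos hc, e1, List.sum_map_mul_right, List.map_id', ← Nf_list_sum, hz, iht _ h1,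
        bt_of_closed z r y hc, sf_one]
      cases f with
      | false => simp [nd, Nf]
      | true =>
        simp only [hc, and_self, if_true, List.map_cons, List.map_nil, List.sum_cons,
          List.sum_nil, tm_head z y z false _ ht hr haj h1, bt_of_closed z r y hc, hz, Nf,
          Bool.false_eq_true, if_false, mul_one]
        by_cases h0 : t = []
        · subst h0
          simp only [nd, and_self, if_true, yr_nil, zr_nil, bt_nil, mul_one, sf_one, NN_zero,
            sf_gg]
          ring
        · rw [nd_of_ne z _ true h0, yr_of_ne _ h0]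
          simp only [Nf, if_true]
          rw [sf_NN, NN_sf]
          by_cases c1 : closed t
          · rw [bt_of_closed z t _ c1]
            simp [zr, c1]
            ring
          · rw [const_bt z t _ c1]
            simp [zr, c1]
            ring
    · rw [if_neg hc, sf_mul_of_zero _ _ (const_bt z r y hc)]
      simp [hc]

end Pool.Agent.Lib.MP_b374f8_co.Ref
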