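import Pool.Agent.Lib.MP_b374f8_co.Ref.Mach

/-!
Statistics on flagged words and the weighted sum over all reachable words.
-/

namespace Pool.Agent.Lib.MP_b374f8_co.Ref

open PowerSeries

variable {R : Type} [CommRing R]

/-- right-to-left minima of a list -/
def rmL : List ℕ → ℕ
  | [] => 0
  | a :: l => rmL l + if ∀ b ∈ l, a < b then 1 else 0

/-- right-to-left maxima of a list -/
def rxL : List ℕ → ℕ
  | [] => 0
  | a :: l => rxL l + if ∀ b ∈ l, b < a then 1 else 0

/-- left-to-right minima below `m` -/
def lmB : ℕ → List ℕ → ℕ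
  | _, [] => 0
  | m, a :: l => (if a < m then 1 else 0) + lmB (min m a) l

/-- left-to-right minima of a list -/
def lmL : List ℕ → ℕ
  | [] => 0
  | a :: l => 1 + lmB a l

/-- product of the weights of the ascent tops -/
def twL (t : ℕ → R) : List ℕ → R
  | [] => 1
  | a :: l => twL t l * if a < l.headD 0 then t (l.headD 0) else 1

/-- confirmed right-to-left maxima -/
def zc : Wd → ℕ
  | [] => 0
  | x :: s => zc s + if x.2 = false ∧ closed s ∧ ∀ u ∈ s, u.1 < x.1 then 1 else 0

/-- confirmed ascent tops -/
def tw (t : ℕ → R) : Wd → R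
  | [] => 1
  | x :: s => tw t s * if x.2 = false ∧ x.1 < hd s then t (hd s) else 1

lemma rm_move {j a : ℕ} (b b' : Bool) {p s : Wd} (hp : below j p) (ha : a < j) (hs : below j s) :
    rmL ((p ++ (a, b) :: (j, b') :: s).map Prod.fst)
      = rmL ((p ++ (a, true) :: s).map Prod.fst) + if s = [] then 1 else 0 := by
  induction p with
  | nil =>
    have h1 : (∀ u ∈ s.map Prod.fst, j < u) ↔ s = [] := by
      cases s with
      | nil => simp
      | cons x s =>
        have := hs x (by simp)
        simp only [List.map_cons, List.mem_cons, forall_eq_or_imp, reduceCtorEq, iff_false,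
          not_and]
        intro h; omega
    simp only [List.nil_append, List.map_cons, rmL, List.mem_cons, forall_eq_or_imp, ha, true_and,
      h1]
    omega
  | cons x p ih =>
    rw [below_cons] at hp
    simp only [List.cons_append, List.map_cons, rmL, ih hp.2]
    have : (∀ u ∈ (p ++ (a, b) :: (j, b') :: s).map Prod.fst, x.1 < u) ↔
        (∀ u ∈ (p ++ (a, true) :: s).map Prod.fst, x.1 < u) := by
      simp only [List.map_append, List.map_cons, List.mem_append, List.mem_cons]
      constructor
      · rintro h u (hu | hu | hu)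
        exacts [h u (Or.inl hu), h u (Or.inr (Or.inl hu)), h u (Or.inr (Or.inr (Or.inr hu)))]
      · rintro h u (hu | hu | hu | hu)
        exacts [h u (Or.inl hu), h u (Or.inr (Or.inl hu)), hu ▸ hp.1, h u (Or.inr (Or.inr hu))]
    simp only [this]
    omega

lemma zc_move {j a : ℕ} (b b' : Bool) {p s : Wd} (hp : below j p) (ha : a < j) (hs : below j s) :
    zc (p ++ (a, b) :: (j, b') :: s)
      = zc (p ++ (a, true) :: s) + if b' = false ∧ closed s then 1 else 0 := by
  induction p with
  | nil =>
    have h1 : ¬ (b = false ∧ closed ((j, b') :: s) ∧ ∀ u ∈ (j, b') :: s, u.1 < a) := by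
      rintro ⟨-, -, h⟩
      have := h (j, b') (by simp)
      simp only at this
      omega
    have h2 : (b' = false ∧ closed s ∧ ∀ u ∈ s, u.1 < j) ↔ (b' = false ∧ closed s) :=
      ⟨fun h => ⟨h.1, h.2.1⟩, fun h => ⟨h.1, h.2, hs⟩⟩
    simp only [List.nil_append, zc, if_neg h1, h2]
    simp
  | cons x p ih =>
    rw [below_cons] at hp
    have h1 : ¬ (x.2 = false ∧ closed (p ++ (a, b) :: (j, b') :: s) ∧
        ∀ u ∈ p ++ (a, b) :: (j, b') :: s, u.1 < x.1) := by
      rintro ⟨-, -, h⟩
      have := h (j, b') (by simp)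
      have := hp.1
      simp only at *
      omega
    have h2 : ¬ (x.2 = false ∧ closed (p ++ (a, true) :: s) ∧
        ∀ u ∈ p ++ (a, true) :: s, u.1 < x.1) := by
      rintro ⟨-, h, -⟩
      have := h (a, true) (by simp)
      simp at this
    simp only [List.cons_append, zc, ih hp.2, if_neg h1, if_neg h2]
    omega

lemma hd_lt_of_below {j : ℕ} {s : Wd} (hs : below j s) : ¬ j < hd s := by
  cases s with
  | nil => simp [hd]
  | cons x s => exact not_lt.2 (hs x (by simp)).le

lemma tw_move (t : ℕ → R) {j a : ℕ} (b b' : Bool) (p : Wd) {s : Wd} (ha : a < j)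
    (hs : below j s) :
    tw t (p ++ (a, b) :: (j, b') :: s) = tw t (p ++ (a, true) :: s) * if b then 1 else t j := by
  induction p with
  | nil =>
    have h1 := hd_lt_of_below hs
    cases b <;> simp [tw, h1, ha, show ∀ c s', hd ((j, c) :: s') = j from fun _ _ => rfl]
  | cons x p ih =>
    simp only [List.cons_append, tw, ih]
    rw [hd_move p ((j, b') :: s) s a b true]
    ring

lemma lmB_move {j a : ℕ} (p s : List ℕ) (ha : a < j) (m : ℕ) :
    lmB m (p ++ a :: j :: s) = lmB m (p ++ a :: s) := by
  induction p generalizing m with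
  | nil =>
    simp only [List.nil_append, lmB]
    rw [if_neg (show ¬ j < min m a by omega), show min (min m a) j = min m a by omega]
    simp
  | cons x p ih => simp only [List.cons_append, lmB, ih]

lemma lm_move {j a : ℕ} (p s : List ℕ) (ha : a < j) :
    lmL (p ++ a :: j :: s) = lmL (p ++ a :: s) := by
  cases p with
  | nil =>
    simp only [List.nil_append, lmL, lmB]
    rw [if_neg (show ¬ j < a by omega), show min a j = a by omega]
    simp
  | cons x p => simp only [List.cons_append, lmL, lmB_move p s ha]

/-- the weight of a flagged word -/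
def om (x y z : R) (t : ℕ → R) (w : Wd) : R :=
  x ^ lmL (w.map Prod.fst) * y ^ rmL (w.map Prod.fst) * z ^ zc w * tw t w

lemma om_move (x y z : R) (t : ℕ → R) {j a : ℕ} (b b' : Bool) {p s : Wd}
    (h : below j (p ++ (a, true) :: s)) :
    om x y z t (p ++ (a, b) :: (j, b') :: s) = om x y z t (p ++ (a, true) :: s)
      * (if b then 1 else t j) * lw y z j (p ++ (a, b) :: (j, b') :: s) := by
  rw [below_append, below_cons] at h
  obtain ⟨hp, ha, hs⟩ := h
  have hl : lmL ((p ++ (a, b) :: (j, b') :: s).map Prod.fst)
      = lmL ((p ++ (a, true) :: s).map Prod.fst) := by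
    simp only [List.map_append, List.map_cons]
    exact lm_move _ _ ha
  rw [om, om, lw_move y z b b' s hp ha, hl, rm_move b b' hp ha hs, zc_move b b' hp ha hs,
    tw_move t b b' p ha hs, pow_add, pow_add]
  have e1 : y ^ (if s = [] then 1 else 0) = yr y s := by
    by_cases h : s = [] <;> simp [yr, h]
  have e2 : z ^ (if b' = false ∧ closed s then 1 else 0) = if b' then 1 else zr z s := by
    cases b' <;> by_cases h : closed s <;> simp [zr, h]
  rw [e1, e2]
  ring

lemma om_front (x y z : R) (t : ℕ → R) {j : ℕ} (b : Bool) {w : Wd} (h0 : w ≠ [])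
    (h : below j w) :
    om x y z t ((j, b) :: w) = om x y z t w * x * (if b then 1 else zr z w) := by
  obtain ⟨u, w, rfl⟩ := List.exists_cons_of_ne_nil h0
  have hu : u.1 < j := h u (by simp)
  have h1 : lmL (((j, b) :: u :: w).map Prod.fst) = lmL ((u :: w).map Prod.fst) + 1 := by
    simp only [List.map_cons, lmL, lmB, if_pos hu]
    rw [show min j u.1 = u.1 by omega]
    omega
  have h2 : rmL (((j, b) :: u :: w).map Prod.fst) = rmL ((u :: w).map Prod.fst) := by
    rw [List.map_cons, rmL, if_neg, add_zero]
    intro h3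
    have := h3 u.1 (by simp)
    simp only at this
    omega
  have h3 : z ^ zc ((j, b) :: u :: w) = z ^ zc (u :: w) * (if b then 1 else zr z (u :: w)) := by
    have h4 : (b = false ∧ closed (u :: w) ∧ ∀ v ∈ u :: w, v.1 < j) ↔
        (b = false ∧ closed (u :: w)) := ⟨fun h => ⟨h.1, h.2.1⟩, fun h' => ⟨h'.1, h'.2, h⟩⟩
    rw [zc, pow_add]
    simp only [h4]
    cases b <;> by_cases h5 : closed (u :: w) <;> simp [zr, h5]
  have h4 : tw t ((j, b) :: u :: w) = tw t (u :: w) := by
    rw [tw, if_neg, mul_one]
    exact fun h5 => hd_lt_of_below h h5.2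
  rw [om, om, h1, h2, h3, h4, pow_succ]
  ring

/-- series of a word with its root letter; the root slot stays open -/
noncomputable def Ph (x y z : R) (t : ℕ → R) : Wd → R⟦X⟧
  | [] => 0
  | u :: w => if u.2 then C (om x y z t w) * bt z y w else 0

lemma sum_mv_Ph (x y z : R) (t : ℕ → R) (j : ℕ) (u : ℕ × Bool) (w : Wd) (h0 : w ≠ [])
    (h : below j w) :
    ((mv j (u :: w)).map (Ph x y z t)).sum = TT x z (t j) (Ph x y z t (u :: w)) := by
  obtain ⟨a, f⟩ := u
  cases f with
  | false =>
    simp [mv, mvA, mvB, Ph, TT_zero, Function.comp_def]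
  | true =>
    have eA : ((mvA j w).map ((a, true) :: ·)).map (Ph x y z t)
        = ((mvA j w).map (tm z y z j)).map (C (om x y z t w) * ·) := by
      simp only [List.map_map]
      apply List.map_congr_left
      intro v hv
      obtain ⟨p, d, b, s, rfl, rfl⟩ := mem_mvA.1 hv
      simp only [Function.comp, Ph, if_true, tm, om_move x y z t true b h, map_mul, mul_one]
      ring
    have eB : ((mvB j w).map ((a, true) :: ·)).map (Ph x y z t)
        = ((mvB j w).map (tm z y z j)).map (C (om x y z t w) * C (t j) * ·) := by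
      simp only [List.map_map]
      apply List.map_congr_left
      intro v hv
      obtain ⟨p, d, b, s, rfl, rfl, -⟩ := mem_mvB.1 hv
      simp only [Function.comp, Ph, if_true, tm, om_move x y z t false b h, map_mul,
        Bool.false_eq_true, if_false]
      ring
    have eC : ((if (true = true ∧ closed (dr a w)) then
        [(a, false) :: (j, true) :: w, (a, false) :: (j, false) :: w] else []).map
          (Ph x y z t)).sum = 0 := by
      split_ifs <;> simp [Ph]
    rw [mv, mvA, mvB, List.map_append, List.map_append, List.map_append, List.sum_append,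
      List.sum_append, List.sum_append, eA, eB, eC, List.sum_map_mul_left, List.sum_map_mul_left,
      List.map_id', List.map_id', sumA z j w y z (Or.inr rfl) h, sumB z j w y h]
    simp only [if_true, List.map_cons, List.map_nil, List.sum_cons, List.sum_nil, Ph,
      om_front x y z t _ h0 h, bt_top z y _ h, yr_of_ne y h0, Bool.false_eq_true, if_false,
      TT_C_mul]
    by_cases hc : closed w
    · rw [bt_of_closed z w y hc]
      simp only [TT, zr, hc, if_true, map_mul, map_sub, map_one, dl_one]
      ring
    · simp only [TT, zr, hc, if_false, map_mul, map_sub, map_one, const_bt z w y hc, map_zero]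
      ring

lemma sum_flat_Ph (x y z : R) (t : ℕ → R) (j : ℕ) (l : List Wd)
    (h : ∀ v ∈ l, ∃ u w, v = u :: w ∧ w ≠ [] ∧ below j w) :
    ((l.flatMap (mv j)).map (Ph x y z t)).sum = TT x z (t j) (l.map (Ph x y z t)).sum := by
  induction l with
  | nil => simp [TT_zero]
  | cons v l ih =>
    obtain ⟨u, w, rfl, h0, hb⟩ := h v (by simp)
    rw [List.flatMap_cons, List.map_append, List.sum_append, ih (fun u hu => h u (by simp [hu])),
      List.map_cons, List.sum_cons, TT_add, sum_mv_Ph x y z t j u w h0 hb]

lemma sum_V_Ph (x y z : R) (t : ℕ → R) (m : ℕ) :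
    ((V (m + 1)).map (Ph x y z t)).sum = IT x z t 1 m (C (x * z) * (C y * ge y)) := by
  induction m with
  | zero =>
    have h1 := bt_top z y (j := 1) (w := []) true (by simp [below])
    have h2 := bt_top z y (j := 1) (w := []) false (by simp [below])
    have h3 : closed ([] : Wd) := by simp [closed]
    have h4 : dr 0 ([] : Wd) = [] := rfl
    simp only [V, mv, mvA, mvB, List.flatMap_cons, List.flatMap_nil, h4, h3, IT]
    simp [Ph, h1, h2, bt_nil, yr_nil, om, lmL, lmB, rmL, zc, tw, hd, h3, gg]
    conv_rhs => rw [ge_eq]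
    ring
  | succ m ih =>
    rw [V, sum_flat_Ph, ih, IT_succ, show 1 + m + 1 = m + 1 + 1 by ring]
    intro v hv
    have hb := below_of_mem_V hv
    have hl : v.length = m + 2 := by simpa using ((mem_V _ v).1 hv).2.2.length_eq
    match v, hl, hb with
    | u :: u' :: w, _, hb => exact ⟨u, u' :: w, rfl, by simp, (below_cons.1 hb).2⟩

lemma zc_cl (l : List ℕ) : zc (cl l) = rxL l := by
  induction l with
  | nil => rfl
  | cons a l ih =>
    have h : cl (a :: l) = (a, false) :: cl l := rfl
    have h2 : (∀ u ∈ cl l, u.1 < a) ↔ ∀ b ∈ l, b < a := by simp [cl]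
    rw [h, zc, rxL, ih]
    simp only [closed_cl l, true_and, h2]

lemma tw_cl (t : ℕ → R) (l : List ℕ) : tw t (cl l) = twL t l := by
  induction l with
  | nil => rfl
  | cons a l ih =>
    have h : cl (a :: l) = (a, false) :: cl l := rfl
    have h2 : hd (cl l) = l.headD 0 := by cases l <;> rfl
    rw [h, tw, twL, ih, h2]
    simp

/-- weight of a permutation word -/
def omL (x y z : R) (t : ℕ → R) (l : List ℕ) : R :=
  x ^ lmL l * y ^ rmL l * z ^ rxL l * twL t l

lemma om_cl (x y z : R) (t : ℕ → R) (l : List ℕ) : om x y z t (cl l) = omL x y z t l := by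
  rw [om, omL, map_fst_cl, zc_cl, tw_cl]

lemma OK_root (b : Bool) {l : List ℕ} (h : (0 :: l).Nodup) : OK ((0, b) :: cl l) ↔ Av l := by
  have h1 := OK_cl _ h
  rw [Av_zero_cons] at h1
  have h2 := OK_cl _ (List.nodup_cons.1 h).2
  cases b with
  | false => exact h1
  | true => rw [← h2]; simp [OK]

open Classical in
theorem sum_perm (x y z : R) (t : ℕ → R) (m : ℕ) :
    ∑ π : Equiv.Perm (Fin (m + 1)) with Av (word π), omL x y z t (word π)
      = constantCoeff (IT x z t 1 m (C (x * z) * (C y * ge y))) := by
  rw [← sum_V_Ph, map_list_sum, List.map_map, ← List.sum_toFinset _ (nodup_V _)]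
  have hnd : ∀ π : Equiv.Perm (Fin (m + 1)), (0 :: word π).Nodup :=
    fun π => (word_perm π).nodup_iff.2 List.nodup_range
  refine Finset.sum_of_injOn (fun π => (0, true) :: cl (word π)) ?_ ?_ ?_ ?_
  · intro π _ σ _ h
    have h2 := congrArg (List.map Prod.fst) (List.cons_injective h)
    rw [map_fst_cl, map_fst_cl] at h2
    exact word_injective h2
  · intro π hπ
    simp only [Finset.coe_filter, Finset.mem_univ, true_and, Set.mem_ofPred_eq] at hπ
    simp only [List.coe_toFinset, Set.mem_ofPred_eq, mem_V]
    refine ⟨(OK_root true (hnd π)).2 hπ, rfl, ?_⟩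
    rw [List.map_cons, map_fst_cl]
    exact word_perm π
  · intro v hv hne
    rw [List.mem_toFinset, mem_V] at hv
    obtain ⟨h1, h2, h3⟩ := hv
    match v, h1, h2, h3, hne with
    | [], _, _, _, _ => simp [Ph]
    | (a, false) :: w, _, _, _, _ => simp [Ph]
    | (a, true) :: w, h1, h2, h3, hne =>
      by_cases hc : closed w
      · exfalso
        have ha : a = 0 := h2
        subst ha
        rw [List.map_cons] at h3
        obtain ⟨π, hπ⟩ := exists_word h3
        have h6 := eq_cl_of_closed hc
        rw [← hπ] at h6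
        rw [h6, OK_root true (hnd π)] at h1
        exact hne ⟨π, by simpa using h1, by rw [h6]⟩
      · simp [Ph, const_bt z w y hc]
  · intro π _
    simp [Ph, bt_of_closed z _ y (closed_cl _), om_cl]

end Pool.Agent.Lib.MP_b374f8_co.Ref
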